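import Mathlib

open Set Filter Topology
open scoped unitInterval

namespace Pool.Agent.Lib.Pc7f692

/-! ### The triangular wave -/

/-- The triangular wave of period `1`, with values in `[-1, 1]` and slopes `±4`. -/
noncomputable def zig (t : ℝ) : ℝ := 2 * Real.arccos (Real.cos (2 * Real.pi * t)) / Real.pi - 1

theorem continuous_zig : Continuous zig := by
  unfold zig
  have := Real.continuous_arccos
  fun_prop

theorem zig_up (k : ℕ) {t : ℝ} (h1 : (k : ℝ) ≤ t) (h2 : t ≤ k + 1 / 2) :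
    zig t = 4 * (t - k) - 1 := by
  have hc : Real.cos (2 * Real.pi * t) = Real.cos (2 * Real.pi * (t - k)) := by
    rw [← Real.cos_sub_nat_mul_two_pi (2 * Real.pi * t) k]
    ring_nf
  have hpi := Real.pi_pos
  unfold zig
  rw [hc, Real.arccos_cos]
  · field_simp
    ring
  · have : 0 ≤ t - k := by linarith
    positivity
  · nlinarith

theorem zig_down (k : ℕ) {t : ℝ} (h1 : (k : ℝ) + 1 / 2 ≤ t) (h2 : t ≤ k + 1) :
    zig t = 3 - 4 * (t - k) := by
  have hc : Real.cos (2 * Real.pi * t) = Real.cos (2 * Real.pi * (k + 1 - t)) := by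
    rw [← Real.cos_neg (2 * Real.pi * (k + 1 - t)),
      ← Real.cos_sub_nat_mul_two_pi (2 * Real.pi * t) (k + 1)]
    push_cast
    ring_nf
  have hpi := Real.pi_pos
  unfold zig
  rw [hc, Real.arccos_cos]
  · field_simp
    ring
  · have : 0 ≤ (k : ℝ) + 1 - t := by linarith
    positivity
  · nlinarith

theorem abs_zig_le (t : ℝ) : |zig t| ≤ 1 := by
  have hpi := Real.pi_pos
  have h0 := Real.arccos_nonneg (Real.cos (2 * Real.pi * t))
  have h1 := Real.arccos_le_pi (Real.cos (2 * Real.pi * t))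
  unfold zig
  rw [abs_le]
  constructor
  · have : 0 ≤ 2 * Real.arccos (Real.cos (2 * Real.pi * t)) / Real.pi := by positivity
    linarith
  · have : 2 * Real.arccos (Real.cos (2 * Real.pi * t)) / Real.pi ≤ 2 := by
      rw [div_le_iff₀ hpi]; linarith
    linarith

/-- On each half-period the wave is affine of slope `±4`; the endpoint values are `∓1`, `±1`. -/
theorem zig_lap (j : ℕ) :
    (∀ t : ℝ, (j : ℝ) / 2 ≤ t → t ≤ (j + 1) / 2 → zig t = 4 * (t - j / 2) - 1) ∨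
    (∀ t : ℝ, (j : ℝ) / 2 ≤ t → t ≤ (j + 1) / 2 → zig t = 1 - 4 * (t - j / 2)) := by
  rcases Nat.even_or_odd' j with ⟨k, rfl | rfl⟩
  · left
    intro t h1 h2
    push_cast at h1 h2 ⊢
    rw [zig_up k (by linarith) (by linarith)]
    ring
  · right
    intro t h1 h2
    push_cast at h1 h2 ⊢
    rw [zig_down k (by linarith) (by linarith)]
    ring

/-! ### The fold -/

/-- Folding of `[-1, 2]` onto `[0, 1]`. -/
def fold (y : ℝ) : ℝ := 1 - abs (1 - abs y)

theorem continuous_fold : Continuous fold := by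
  unfold fold; fun_prop

theorem fold_of_mem {y : ℝ} (h0 : 0 ≤ y) (h1 : y ≤ 1) : fold y = y := by
  unfold fold
  rw [abs_of_nonneg h0, abs_of_nonneg (by linarith)]; ring

theorem fold_neg {y : ℝ} (h0 : -1 ≤ y) (h1 : y ≤ 0) : fold y = -y := by
  unfold fold
  rw [abs_of_nonpos h1, abs_of_nonneg (by linarith)]; ring

theorem fold_big {y : ℝ} (h0 : 1 ≤ y) : fold y = 2 - y := by
  unfold fold
  rw [abs_of_nonneg (by linarith : 0 ≤ y), abs_of_nonpos (by linarith)]; ring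

theorem fold_mem {y : ℝ} (h0 : -1 ≤ y) (h1 : y ≤ 2) : fold y ∈ Icc (0 : ℝ) 1 := by
  rcases le_total y 0 with h | h
  · rw [fold_neg h0 h]; constructor <;> linarith
  · rcases le_total y 1 with h' | h'
    · rw [fold_of_mem h h']; exact ⟨h, h'⟩
    · rw [fold_big h']; constructor <;> linarith

theorem abs_fold_sub_le (x y : ℝ) : |fold x - fold y| ≤ |x - y| := by
  unfold fold
  have h1 : (1 - abs (1 - abs x)) - (1 - abs (1 - abs y))
      = abs (1 - abs y) - abs (1 - abs x) := by ring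
  rw [h1]
  calc abs (abs (1 - abs y) - abs (1 - abs x)) ≤ abs ((1 - abs y) - (1 - abs x)) :=
        abs_abs_sub_abs_le _ _
    _ = abs (abs x - abs y) := by congr 1; ring
    _ ≤ abs (x - y) := abs_abs_sub_abs_le _ _

theorem fold_image {u v : ℝ} (hu : -1 ≤ u) (huv : u ≤ v) (hv : v ≤ 2) :
    ∃ c d : ℝ, 0 ≤ c ∧ d ≤ 1 ∧ (v - u) / 3 ≤ d - c ∧ Icc c d ⊆ fold '' Icc u v := by
  -- first find a piece without folding point
  have hneg : ∀ u' v' : ℝ, u ≤ u' → v' ≤ v → -1 ≤ u' → v' ≤ 0 →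
      Icc (-v') (-u') ⊆ fold '' Icc u v := by
    intro u' v' h1 h2 h3 h4 s hs
    refine ⟨-s, ⟨by linarith [hs.2], by linarith [hs.1]⟩, ?_⟩
    rw [fold_neg (by linarith [hs.2]) (by linarith [hs.1])]; ring
  have hmid : ∀ u' v' : ℝ, u ≤ u' → v' ≤ v → 0 ≤ u' → v' ≤ 1 →
      Icc u' v' ⊆ fold '' Icc u v := by
    intro u' v' h1 h2 h3 h4 s hs
    refine ⟨s, ⟨by linarith [hs.1], by linarith [hs.2]⟩, ?_⟩
    rw [fold_of_mem (by linarith [hs.1]) (by linarith [hs.2])]
  have hbig : ∀ u' v' : ℝ, u ≤ u' → v' ≤ v → 1 ≤ u' → v' ≤ 2 →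
      Icc (2 - v') (2 - u') ⊆ fold '' Icc u v := by
    intro u' v' h1 h2 h3 h4 s hs
    refine ⟨2 - s, ⟨by linarith [hs.2], by linarith [hs.1]⟩, ?_⟩
    rw [fold_big (by linarith [hs.2])]; ring
  rcases le_total v 0 with hv0 | hv0
  · exact ⟨-v, -u, by linarith, by linarith, by linarith, hneg u v le_rfl le_rfl hu hv0⟩
  rcases le_total 1 u with hu1 | hu1
  · exact ⟨2 - v, 2 - u, by linarith, by linarith, by linarith, hbig u v le_rfl le_rfl hu1 hv⟩
  rcases le_total 0 u with hu0 | hu0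
  · rcases le_total v 1 with hv1 | hv1
    · exact ⟨u, v, hu0, hv1, by linarith, hmid u v le_rfl le_rfl hu0 hv1⟩
    · -- `0 ≤ u ≤ 1 ≤ v`
      rcases le_total (v - 1) (1 - u) with h | h
      · exact ⟨u, 1, hu0, le_rfl, by linarith, hmid u 1 le_rfl hv1 hu0 le_rfl⟩
      · exact ⟨2 - v, 1, by linarith, le_rfl, by linarith,
          by simpa [show (2 : ℝ) - 1 = 1 by norm_num] using hbig 1 v hu1 le_rfl le_rfl hv⟩
  · rcases le_total v 1 with hv1 | hv1
    · -- `u ≤ 0 ≤ v ≤ 1`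
      rcases le_total v (-u) with h | h
      · exact ⟨0, -u, le_rfl, by linarith, by linarith,
          by simpa using hneg u 0 le_rfl hv0 hu le_rfl⟩
      · exact ⟨0, v, le_rfl, hv1, by linarith, hmid 0 v hu0 le_rfl le_rfl hv1⟩
    · exact ⟨0, 1, le_rfl, le_rfl, by linarith, hmid 0 1 hu0 hv1 le_rfl le_rfl⟩

/-! ### Lipschitz regularisation -/

/-- The Lipschitz regularisation (infimal convolution) of an interval map. -/
noncomputable def lip (f : C(I, I)) (L x : ℝ) : ℝ :=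
  sInf ((fun y : I => (f y : ℝ) + L * |x - y|) '' univ)

theorem lip_bdd (f : C(I, I)) {L : ℝ} (hL : 0 ≤ L) (x : ℝ) :
    BddBelow ((fun y : I => (f y : ℝ) + L * |x - y|) '' univ) := by
  refine ⟨0, ?_⟩
  rintro _ ⟨y, -, rfl⟩
  have := (f y).2.1
  have := mul_nonneg hL (abs_nonneg (x - (y : ℝ)))
  show 0 ≤ (f y : ℝ) + L * |x - y|
  linarith

theorem lip_le (f : C(I, I)) {L : ℝ} (hL : 0 ≤ L) (x : ℝ) (y : I) :
    lip f L x ≤ f y + L * |x - y| :=
  csInf_le (lip_bdd f hL x) ⟨y, mem_univ _, rfl⟩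

theorem le_lip (f : C(I, I)) {L : ℝ} (x c : ℝ) (h : ∀ y : I, c ≤ f y + L * |x - y|) :
    c ≤ lip f L x := by
  apply le_csInf
  · exact ⟨_, ⟨0, mem_univ _, rfl⟩⟩
  · rintro _ ⟨y, -, rfl⟩
    exact h y

theorem lip_nonneg (f : C(I, I)) {L : ℝ} (hL : 0 ≤ L) (x : ℝ) : 0 ≤ lip f L x := by
  apply le_lip
  intro y
  have := (f y).2.1
  have := mul_nonneg hL (abs_nonneg (x - (y : ℝ)))
  linarith

theorem lip_le_self (f : C(I, I)) {L : ℝ} (hL : 0 ≤ L) (x : I) : lip f L x ≤ f x := by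
  have := lip_le f hL x x
  simpa using this

theorem lip_le_one (f : C(I, I)) {L : ℝ} (hL : 0 ≤ L) (x : I) : lip f L x ≤ 1 :=
  (lip_le_self f hL x).trans (f x).2.2

theorem lip_lipschitz (f : C(I, I)) {L : ℝ} (hL : 0 ≤ L) (x x' : ℝ) :
    |lip f L x - lip f L x'| ≤ L * |x - x'| := by
  have key : ∀ x x' : ℝ, lip f L x - L * |x - x'| ≤ lip f L x' := by
    intro x x'
    apply le_lip
    intro y
    have h1 := lip_le f hL x y
    have h2 : |x - (y : ℝ)| ≤ |x - x'| + |x' - y| := abs_sub_le _ _ _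
    nlinarith
  rw [abs_le]
  constructor
  · have := key x' x
    rw [abs_sub_comm] at this
    linarith
  · have := key x x'
    linarith

theorem self_sub_le_lip (f : C(I, I)) {L δ : ℝ} (hL : 0 < L) (x : I) (hδ : 0 ≤ δ)
    (h : ∀ y : I, |(x : ℝ) - y| ≤ 1 / L → |(f x : ℝ) - f y| ≤ δ) :
    (f x : ℝ) - δ ≤ lip f L x := by
  apply le_lip
  intro y
  rcases le_total |(x : ℝ) - y| (1 / L) with h1 | h1
  · have h2 := h y h1
    rw [abs_le] at h2
    have := mul_nonneg hL.le (abs_nonneg ((x : ℝ) - (y : ℝ)))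
    linarith [h2.2]
  · have h2 : 1 ≤ L * |(x : ℝ) - y| := by
      rw [div_le_iff₀ hL] at h1
      linarith [mul_comm L |(x : ℝ) - y|]
    have := (f y).2.1
    have := (f x).2.2
    linarith

theorem continuous_lip : Continuous fun q : C(I, I) × ℝ × ℝ => lip q.1 q.2.1 q.2.2 := by
  unfold lip
  apply IsCompact.continuous_sInf isCompact_univ
  have : (↿fun (q : C(I, I) × ℝ × ℝ) (y : I) => ((q.1 y : ℝ)) + q.2.1 * |q.2.2 - y|)
      = fun z : (C(I, I) × ℝ × ℝ) × I => ((z.1.1 z.2 : ℝ)) + z.1.2.1 * |z.1.2.2 - z.2| := rfl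
  rw [this]
  fun_prop

end Pool.Agent.Lib.Pc7f692
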