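import Mathlib
import Pool.Agent.Lib.Pc7f692.Zigzag

open Set Filter Topology
open scoped unitInterval

namespace Pool.Agent.Lib.Pc7f692

/-- One step of an `ε`-chain of `f`. -/
def Step (f : C(I, I)) (ε : ℝ) (x y : I) : Prop := dist (f x) y < ε

section

variable (f : C(I, I)) (a η : ℝ)

/-- The unfolded zigzag perturbation. -/
noncomputable def unf (x : ℝ) : ℝ := lip f (a / η) x + a * zig (x / η)

/-- The zigzag perturbation. -/
noncomputable def zz (x : ℝ) : ℝ := fold (unf f a η x)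

/-- The parameters are admissible for `f`. -/
def Adm : Prop :=
  0 < a ∧ a ≤ 1 ∧ 0 < η ∧ η ≤ a / 16 ∧
    ∀ x y : I, |(x : ℝ) - y| ≤ η / a → |(f x : ℝ) - f y| ≤ a / 16

variable {f a η}

theorem Adm.close (h : Adm f a η) (x : I) : |lip f (a / η) x - f x| ≤ a / 16 := by
  obtain ⟨ha, ha1, hη, hη1, hosc⟩ := h
  have hL : 0 < a / η := div_pos ha hη
  rw [abs_le]
  constructor
  · have := self_sub_le_lip f hL x (by positivity : 0 ≤ a / 16) (by
      intro y hy
      apply hosc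
      rw [one_div_div] at hy
      exact hy)
    linarith
  · have := lip_le_self f hL.le x
    have : 0 < a / 16 := by positivity
    linarith

theorem Adm.unf_mem (h : Adm f a η) (x : I) : -1 ≤ unf f a η x ∧ unf f a η x ≤ 2 := by
  obtain ⟨ha, ha1, hη, hη1, hosc⟩ := h
  have hL : 0 < a / η := div_pos ha hη
  have h1 := lip_nonneg f hL.le (x : ℝ)
  have h2 := lip_le_one f hL.le x
  have h3 := abs_zig_le ((x : ℝ) / η)
  rw [abs_le] at h3
  unfold unf
  constructor
  · nlinarith [h3.1]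
  · nlinarith [h3.2]

theorem Adm.zz_mem (h : Adm f a η) (x : I) : zz f a η x ∈ I :=
  fold_mem (h.unf_mem x).1 (h.unf_mem x).2

theorem Adm.zz_close (h : Adm f a η) (x : I) : |zz f a η x - f x| ≤ 2 * a := by
  have h1 : |zz f a η x - fold (f x)| ≤ |unf f a η x - f x| := abs_fold_sub_le _ _
  rw [fold_of_mem (f x).2.1 (f x).2.2] at h1
  have h2 := h.close x
  have h3 := abs_zig_le ((x : ℝ) / η)
  have ha := h.1
  have h4 : |unf f a η x - f x| ≤ |lip f (a / η) x - f x| + |a * zig (x / η)| := by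
    unfold unf
    have : lip f (a / η) ↑x + a * zig (↑x / η) - ↑(f x)
      = (lip f (a / η) ↑x - ↑(f x)) + a * zig (↑x / η) := by ring
    rw [this]
    exact abs_add_le _ _
  have h5 : |a * zig (x / η)| ≤ a := by
    rw [abs_mul, abs_of_pos ha]
    nlinarith
  linarith

theorem continuous_unf (hη : η ≠ 0) : Continuous (unf f a η) := by
  unfold unf
  have h1 : Continuous fun x : ℝ => lip f (a / η) x :=
    continuous_lip.comp (by fun_prop : Continuous fun x : ℝ => (f, (a / η, x)))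
  have h2 : Continuous fun x : ℝ => zig (x / η) := continuous_zig.comp (by fun_prop)
  fun_prop

theorem continuous_zz (hη : η ≠ 0) : Continuous (zz f a η) :=
  continuous_fold.comp (continuous_unf hη)

/-- Expansion on a single lap. -/
theorem Adm.expand (h : Adm f a η) (j : ℕ) {x y : ℝ} (hxy : x ≤ y)
    (hx : (j : ℝ) * (η / 2) ≤ x) (hy : y ≤ (j + 1) * (η / 2)) :
    48 * (y - x) ≤ |unf f a η y - unf f a η x| := by
  obtain ⟨ha, ha1, hη, hη1, hosc⟩ := h
  have hL : 0 < a / η := div_pos ha hη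
  have hL16 : 16 ≤ a / η := by
    rw [le_div_iff₀ hη]; linarith
  have hlip := lip_lipschitz f hL.le y x
  rw [abs_of_nonneg (by linarith : 0 ≤ y - x)] at hlip
  have hzig : |a * zig (y / η) - a * zig (x / η)| = 4 * (a / η) * (y - x) := by
    have hx1 : (j : ℝ) / 2 ≤ x / η := by rw [le_div_iff₀ hη]; linarith
    have hx2 : x / η ≤ (j + 1) / 2 := by rw [div_le_iff₀ hη]; linarith
    have hy1 : (j : ℝ) / 2 ≤ y / η := by rw [le_div_iff₀ hη]; linarith
    have hy2 : y / η ≤ (j + 1) / 2 := by rw [div_le_iff₀ hη]; linarith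
    rcases zig_lap j with hz | hz
    · rw [hz _ hx1 hx2, hz _ hy1 hy2]
      have : a * (4 * (y / η - ↑j / 2) - 1) - a * (4 * (x / η - ↑j / 2) - 1)
        = 4 * (a / η) * (y - x) := by field_simp; ring
      rw [this, abs_of_nonneg]
      have : 0 ≤ y - x := by linarith
      positivity
    · rw [hz _ hx1 hx2, hz _ hy1 hy2]
      have : a * (1 - 4 * (y / η - ↑j / 2)) - a * (1 - 4 * (x / η - ↑j / 2))
        = -(4 * (a / η) * (y - x)) := by field_simp; ring
      rw [this, abs_neg, abs_of_nonneg]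
      have : 0 ≤ y - x := by linarith
      positivity
  have h1 : |a * zig (y / η) - a * zig (x / η)| ≤
      |unf f a η y - unf f a η x| + |lip f (a / η) y - lip f (a / η) x| := by
    have : a * zig (y / η) - a * zig (x / η)
      = (unf f a η y - unf f a η x) - (lip f (a / η) y - lip f (a / η) x) := by
      unfold unf; ring
    rw [this]
    exact abs_sub _ _
  have hyx : 0 ≤ y - x := by linarith
  nlinarith

/-- If an interval contains no full lap then its image contains an interval of twice the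
length. -/
theorem Adm.double (h : Adm f a η) {p q : ℝ} (hp : 0 ≤ p) (hpq : p < q) (hq : q ≤ 1)
    (hno : ∀ j : ℕ, ¬ (p ≤ j * (η / 2) ∧ ((j : ℝ) + 1) * (η / 2) ≤ q)) :
    ∃ c d : ℝ, 0 ≤ c ∧ c < d ∧ d ≤ 1 ∧ 2 * (q - p) ≤ d - c ∧ Icc c d ⊆ zz f a η '' Icc p q := by
  have hη : 0 < η := h.2.2.1
  have hη2 : 0 < η / 2 := by positivity
  -- the lap containing `p`
  set j : ℕ := ⌊p / (η / 2)⌋₊ with hj
  have hj1 : (j : ℝ) * (η / 2) ≤ p := by
    have := Nat.floor_le (by positivity : 0 ≤ p / (η / 2))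
    rw [← hj] at this
    rwa [le_div_iff₀ hη2] at this
  have hj2 : p < ((j : ℝ) + 1) * (η / 2) := by
    have := Nat.lt_floor_add_one (p / (η / 2))
    rw [← hj] at this
    rwa [div_lt_iff₀ hη2] at this
  -- a half of the interval inside one lap
  obtain ⟨i, p', q', hpp', hp'q', hq'q, hlen, hi1, hi2⟩ : ∃ (i : ℕ) (p' q' : ℝ), p ≤ p' ∧ p' < q' ∧
      q' ≤ q ∧ (q - p) / 2 ≤ q' - p' ∧ (i : ℝ) * (η / 2) ≤ p' ∧ q' ≤ (i + 1) * (η / 2) := by
    rcases le_total q (((j : ℝ) + 1) * (η / 2)) with hc | hc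
    · exact ⟨j, p, q, le_rfl, hpq, le_rfl, by linarith, hj1, hc⟩
    · have hq2 : q < ((j : ℝ) + 1 + 1) * (η / 2) := by
        by_contra hcon
        push Not at hcon
        apply hno (j + 1)
        push_cast
        exact ⟨hj2.le, hcon⟩
      rcases le_total (((j : ℝ) + 1) * (η / 2) - p) (q - ((j : ℝ) + 1) * (η / 2)) with hd | hd
      · refine ⟨j + 1, ((j : ℝ) + 1) * (η / 2), q, hj2.le, ?_, le_rfl, by linarith, ?_, ?_⟩
        · linarith
        · push_cast; exact le_rfl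
        · push_cast; exact hq2.le
      · exact ⟨j, p, ((j : ℝ) + 1) * (η / 2), le_rfl, hj2, hc, by linarith, hj1, le_rfl⟩
  have hexp := h.expand i hp'q'.le hi1 hi2
  -- image of the unfolded map
  have hcont : ContinuousOn (unf f a η) (uIcc p' q') := (continuous_unf hη.ne').continuousOn
  have hivt := intermediate_value_uIcc hcont
  rw [uIcc_of_le hp'q'.le] at hivt
  set u := min (unf f a η p') (unf f a η q') with hu
  set v := max (unf f a η p') (unf f a η q') with hv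
  have hvu : v - u = |unf f a η q' - unf f a η p'| := by
    rw [hu, hv, max_sub_min_eq_abs]
  have hp'I : p' ∈ I := ⟨by linarith, by linarith⟩
  have hq'I : q' ∈ I := ⟨by linarith, by linarith⟩
  have hb1 := h.unf_mem ⟨p', hp'I⟩
  have hb2 := h.unf_mem ⟨q', hq'I⟩
  obtain ⟨c, d, hc0, hd1, hcd, himg⟩ := fold_image (u := u) (v := v)
    (le_min hb1.1 hb2.1) min_le_max (max_le hb1.2 hb2.2)
  refine ⟨c, d, hc0, by linarith, hd1, by linarith, ?_⟩
  intro s hs
  obtain ⟨y, hy, rfl⟩ := himg hs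
  obtain ⟨x, hx, rfl⟩ := hivt hy
  exact ⟨x, ⟨by linarith [hx.1], by linarith [hx.2]⟩, rfl⟩

/-- Iterated images of an interval eventually contain a full lap. -/
theorem Adm.exists_lap (h : Adm f a η) {p q : ℝ} (hp : 0 ≤ p) (hpq : p < q) (hq : q ≤ 1) :
    ∃ n j : ℕ, ((j : ℝ) + 1) * (η / 2) ≤ 1 ∧
      Icc (j * (η / 2)) (((j : ℝ) + 1) * (η / 2)) ⊆ (zz f a η)^[n] '' Icc p q := by
  by_contra hcon
  push Not at hcon
  have key : ∀ n : ℕ, ∃ c d : ℝ, 0 ≤ c ∧ c < d ∧ d ≤ 1 ∧ 2 ^ n * (q - p) ≤ d - c ∧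
      Icc c d ⊆ (zz f a η)^[n] '' Icc p q := by
    intro n
    induction n with
    | zero => exact ⟨p, q, hp, hpq, hq, by simp, by simp⟩
    | succ n ih =>
      obtain ⟨c, d, hc, hcd, hd, hlen, hsub⟩ := ih
      have hno : ∀ j : ℕ, ¬ (c ≤ j * (η / 2) ∧ ((j : ℝ) + 1) * (η / 2) ≤ d) := by
        rintro j ⟨h1, h2⟩
        apply hcon n j (h2.trans hd)
        exact (Icc_subset_Icc h1 h2).trans hsub
      obtain ⟨c', d', hc', hcd', hd', hlen', hsub'⟩ := h.double hc hcd hd hno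
      refine ⟨c', d', hc', hcd', hd', ?_, ?_⟩
      · rw [pow_succ]; linarith
      · rw [Function.iterate_succ', image_comp]
        exact hsub'.trans (image_mono hsub)
  obtain ⟨n, hn⟩ := pow_unbounded_of_one_lt (1 / (q - p)) (by norm_num : (1 : ℝ) < 2)
  obtain ⟨c, d, hc, hcd, hd, hlen, -⟩ := key n
  have hqp : 0 < q - p := by linarith
  rw [div_lt_iff₀ hqp] at hn
  linarith

/-- The lap of index `j` is contained in `I` and all its points are within `η` of `x`. -/
def Near (η : ℝ) (j : ℕ) (x : I) : Prop :=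
  ((j : ℝ) + 1) * (η / 2) ≤ 1 ∧ |(j : ℝ) * (η / 2) - x| ≤ η ∧ |((j : ℝ) + 1) * (η / 2) - x| ≤ η

theorem Near.dist_le (hη : 0 < η) {j : ℕ} {x : I} (h : Near η j x) {s : ℝ}
    (hs : s ∈ Icc ((j : ℝ) * (η / 2)) (((j : ℝ) + 1) * (η / 2))) : |s - x| ≤ η := by
  obtain ⟨-, h1, h2⟩ := h
  rw [abs_le] at h1 h2 ⊢
  exact ⟨by linarith [hs.1, h1.1], by linarith [hs.2, h2.2]⟩

theorem exists_near (hη : 0 < η) (hη1 : η ≤ 1) (x : I) : ∃ j, Near η j x := by
  have hη2 : 0 < η / 2 := by positivity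
  set j : ℕ := ⌊(x : ℝ) / (η / 2)⌋₊ with hj
  have hx0 := x.2.1
  have hx1 := x.2.2
  have hj1 : (j : ℝ) * (η / 2) ≤ x := by
    have := Nat.floor_le (by positivity : 0 ≤ (x : ℝ) / (η / 2))
    rw [← hj] at this
    rwa [le_div_iff₀ hη2] at this
  have hj2 : (x : ℝ) < ((j : ℝ) + 1) * (η / 2) := by
    have := Nat.lt_floor_add_one ((x : ℝ) / (η / 2))
    rw [← hj] at this
    rwa [div_lt_iff₀ hη2] at this
  rcases le_or_gt (((j : ℝ) + 1) * (η / 2)) 1 with h | h
  · refine ⟨j, h, ?_, ?_⟩ <;> rw [abs_le] <;> constructor <;> linarith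
  · -- then `j ≥ 1` and we use the previous lap
    obtain ⟨i, hi⟩ : ∃ i, j = i + 1 := by
      rcases Nat.eq_zero_or_pos j with h0 | h0
      · rw [h0] at h; push_cast at h; linarith
      · exact ⟨j - 1, by omega⟩
    rw [hi] at hj1 hj2 h
    push_cast at hj1 hj2 h
    refine ⟨i, by linarith, ?_, ?_⟩ <;> rw [abs_le] <;> constructor <;> linarith

/-- Coverage: the image of a lap near `x` covers a large neighbourhood of `f x`. -/
theorem Adm.cover (h : Adm f a η) {j : ℕ} {x : I} (hn : Near η j x) {s : ℝ} (hs : s ∈ I)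
    (hd : |(f x : ℝ) - s| ≤ 7 / 8 * a ∨ a = 1) :
    s ∈ zz f a η '' Icc ((j : ℝ) * (η / 2)) (((j : ℝ) + 1) * (η / 2)) := by
  have hclose := h.close
  have hcl := h
  obtain ⟨ha, ha1, hη, hη1, hosc⟩ := h
  have hL : 0 < a / η := div_pos ha hη
  obtain ⟨hj1, hn1, hn2⟩ := hn
  set c : ℝ := (j : ℝ) * (η / 2) with hc
  set c' : ℝ := ((j : ℝ) + 1) * (η / 2) with hc'
  have hc0 : 0 ≤ c := by positivity
  have hcc' : c ≤ c' := by rw [hc, hc']; nlinarith
  have hηa : η ≤ η / a := by rw [le_div_iff₀ ha]; nlinarith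
  -- both end values of the regularisation are close to `f x`
  have hval : ∀ z : ℝ, ∀ hz : z ∈ I, |z - x| ≤ η → |lip f (a / η) z - f x| ≤ a / 8 := by
    intro z hz hzx
    have h1 := hclose ⟨z, hz⟩
    have h2 := hosc ⟨z, hz⟩ x (hzx.trans hηa)
    have h3 : lip f (a / η) z - f x = (lip f (a / η) z - f ⟨z, hz⟩) + (f ⟨z, hz⟩ - f x) := by ring
    rw [h3]
    calc _ ≤ _ := abs_add_le _ _
      _ ≤ a / 16 + a / 16 := add_le_add h1 h2
      _ = a / 8 := by ring
  have hcI : c ∈ I := ⟨hc0, hcc'.trans hj1⟩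
  have hc'I : c' ∈ I := ⟨hc0.trans hcc', hj1⟩
  have v1 := hval c hcI hn1
  have v2 := hval c' hc'I hn2
  have w1 := lip_nonneg f hL.le c
  have w2 := lip_nonneg f hL.le c'
  have w3 := lip_le_one f hL.le ⟨c, hcI⟩
  have w4 := lip_le_one f hL.le ⟨c', hc'I⟩
  have hzc : (j : ℝ) / 2 ≤ c / η ∧ c / η ≤ (j + 1) / 2 ∧ c / η = (j : ℝ) / 2 := by
    have : c / η = (j : ℝ) / 2 := by rw [hc]; field_simp
    rw [this]; refine ⟨le_rfl, by linarith, rfl⟩
  have hzc' : (j : ℝ) / 2 ≤ c' / η ∧ c' / η ≤ (j + 1) / 2 ∧ c' / η = ((j : ℝ) + 1) / 2 := by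
    have : c' / η = ((j : ℝ) + 1) / 2 := by rw [hc']; field_simp
    rw [this]; refine ⟨by linarith, le_rfl, rfl⟩
  -- `s` lies between the values at the end points
  have hbtw : s ∈ uIcc (unf f a η c) (unf f a η c') := by
    have hlow : ∀ z : ℝ, |lip f (a / η) z - f x| ≤ a / 8 → 0 ≤ lip f (a / η) z →
        lip f (a / η) z ≤ 1 → lip f (a / η) z - a ≤ s ∧ s ≤ lip f (a / η) z + a := by
      intro z hz hz0 hz1
      rw [abs_le] at hz
      rcases hd with hd | hd
      · rw [abs_le] at hd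
        constructor <;> linarith [hz.1, hz.2, hd.1, hd.2]
      · rw [hd] at hz hz0 hz1 ⊢
        constructor <;> linarith [hs.1, hs.2]
    have b1 := hlow c v1 w1 w3
    have b2 := hlow c' v2 w2 w4
    rw [mem_uIcc]
    rcases zig_lap j with hz | hz
    · left
      unfold unf
      rw [hz _ hzc.1 hzc.2.1, hz _ hzc'.1 hzc'.2.1, hzc.2.2, hzc'.2.2]
      constructor
      · have : a * (4 * ((j : ℝ) / 2 - j / 2) - 1) = -a := by ring
        rw [this]; linarith [b1.1]
      · have : a * (4 * (((j : ℝ) + 1) / 2 - j / 2) - 1) = a := by ring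
        rw [this]; linarith [b2.2]
    · right
      unfold unf
      rw [hz _ hzc.1 hzc.2.1, hz _ hzc'.1 hzc'.2.1, hzc.2.2, hzc'.2.2]
      constructor
      · have : a * (1 - 4 * (((j : ℝ) + 1) / 2 - j / 2)) = -a := by ring
        rw [this]; linarith [b2.1]
      · have : a * (1 - 4 * ((j : ℝ) / 2 - j / 2)) = a := by ring
        rw [this]; linarith [b1.2]
  have hcont : ContinuousOn (unf f a η) (uIcc c c') := (continuous_unf hη.ne').continuousOn
  obtain ⟨x', hx', hx's⟩ := intermediate_value_uIcc hcont hbtw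
  rw [uIcc_of_le hcc'] at hx'
  refine ⟨x', hx', ?_⟩
  unfold zz
  rw [hx's, fold_of_mem hs.1 hs.2]

/-- Following a chain of `f` by laps. -/
theorem Adm.follow (h : Adm f a η) {x y : I} (hc : Relation.TransGen (Step f (a / 2)) x y)
    {j : ℕ} (hj : Near η j x) : ∃ m : ℕ, 0 < m ∧
      (y : ℝ) ∈ (zz f a η)^[m] '' Icc ((j : ℝ) * (η / 2)) (((j : ℝ) + 1) * (η / 2)) ∧
      ∃ i : ℕ, Near η i y ∧ Icc ((i : ℝ) * (η / 2)) (((i : ℝ) + 1) * (η / 2)) ⊆
        (zz f a η)^[m] '' Icc ((j : ℝ) * (η / 2)) (((j : ℝ) + 1) * (η / 2)) := by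
  have ha := h.1
  have ha1 := h.2.1
  have hη : 0 < η := h.2.2.1
  have hη1 : η ≤ a / 16 := h.2.2.2.1
  -- one step
  have step : ∀ {x y : I} {j : ℕ}, Step f (a / 2) x y → Near η j x →
      (y : ℝ) ∈ zz f a η '' Icc ((j : ℝ) * (η / 2)) (((j : ℝ) + 1) * (η / 2)) ∧
      ∃ i : ℕ, Near η i y ∧ Icc ((i : ℝ) * (η / 2)) (((i : ℝ) + 1) * (η / 2)) ⊆
        zz f a η '' Icc ((j : ℝ) * (η / 2)) (((j : ℝ) + 1) * (η / 2)) := by
    intro x y j hxy hj
    have hxy' : |(f x : ℝ) - y| < a / 2 := hxy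
    refine ⟨h.cover hj y.2 (Or.inl (by linarith)), ?_⟩
    obtain ⟨i, hi⟩ := exists_near hη (by linarith) y
    refine ⟨i, hi, ?_⟩
    intro s hs
    have hsy := hi.dist_le hη hs
    have hsI : s ∈ I := by
      refine ⟨le_trans (by positivity) hs.1, hs.2.trans hi.1⟩
    apply h.cover hj hsI
    left
    have : (f x : ℝ) - s = ((f x : ℝ) - y) + (y - s) := by ring
    rw [this]
    rw [abs_sub_comm] at hsy
    calc _ ≤ _ := abs_add_le _ _
      _ ≤ a / 2 + a / 16 := by linarith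
      _ ≤ 7 / 8 * a := by linarith
  induction hc with
  | single hxy =>
    refine ⟨1, one_pos, ?_⟩
    simpa using step hxy hj
  | tail _ hyz ih =>
    obtain ⟨m, hm, -, i, hi, hsub⟩ := ih
    obtain ⟨h1, i', hi', hsub'⟩ := step hyz hi
    refine ⟨m + 1, Nat.succ_pos _, ?_, i', hi', ?_⟩
    · rw [Function.iterate_succ', image_comp]
      exact image_mono hsub h1
    · rw [Function.iterate_succ', image_comp]
      exact hsub'.trans (image_mono hsub)

/-- The zigzag perturbation of a sufficiently chain transitive map covers everything from any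
interval. -/
theorem Adm.reach (h : Adm f a η)
    (hch : a = 1 ∨ ∀ x y : I, Relation.TransGen (Step f (a / 2)) x y)
    {p q : ℝ} (hp : 0 ≤ p) (hpq : p < q) (hq : q ≤ 1) (y : I) :
    ∃ n : ℕ, 0 < n ∧ (y : ℝ) ∈ (zz f a η)^[n] '' Icc p q := by
  have hη : 0 < η := h.2.2.1
  obtain ⟨n, j, hj1, hsub⟩ := h.exists_lap hp hpq hq
  have hxI : (j : ℝ) * (η / 2) ∈ I := ⟨by positivity, by nlinarith⟩
  have hnear : Near η j ⟨(j : ℝ) * (η / 2), hxI⟩ := by
    refine ⟨hj1, by simp [hη.le], ?_⟩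
    show |((j : ℝ) + 1) * (η / 2) - (j : ℝ) * (η / 2)| ≤ η
    have : ((j : ℝ) + 1) * (η / 2) - (j : ℝ) * (η / 2) = η / 2 := by ring
    rw [this, abs_of_pos (by positivity)]
    linarith
  have key : ∃ m : ℕ, 0 < m ∧
      (y : ℝ) ∈ (zz f a η)^[m] '' Icc ((j : ℝ) * (η / 2)) (((j : ℝ) + 1) * (η / 2)) := by
    rcases hch with h1 | h1
    · exact ⟨1, one_pos, by simpa using h.cover hnear y.2 (Or.inr h1)⟩
    · obtain ⟨m, hm, hy, -⟩ := h.follow (h1 _ y) hnear
      exact ⟨m, hm, hy⟩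
  obtain ⟨m, hm, hy⟩ := key
  refine ⟨m + n, by omega, ?_⟩
  rw [Function.iterate_add, image_comp]
  exact image_mono hsub hy

end

end Pool.Agent.Lib.Pc7f692
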