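import Mathlib
import Pool.Agent.Lib.Pc7f692.Transitive

open Set Filter Topology
open scoped unitInterval

namespace Pool.Agent.Lib.Pc7f692

/-- The zigzag perturbation as a self-map of the interval. -/
noncomputable def zmap {f : C(I, I)} {a η : ℝ} (h : Adm f a η) : C(I, I) where
  toFun x := ⟨zz f a η x, h.zz_mem x⟩
  continuous_toFun :=
    ((continuous_zz h.2.2.1.ne').comp continuous_subtype_val).subtype_mk _

theorem zmap_coe {f : C(I, I)} {a η : ℝ} (h : Adm f a η) (x : I) :
    ((zmap h x : I) : ℝ) = zz f a η x := rfl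

theorem zmap_iterate {f : C(I, I)} {a η : ℝ} (h : Adm f a η) (n : ℕ) (x : I) :
    (((⇑(zmap h))^[n] x : I) : ℝ) = (zz f a η)^[n] x := by
  induction n with
  | zero => rfl
  | succ n ih => rw [Function.iterate_succ_apply', Function.iterate_succ_apply', zmap_coe, ih]

theorem dist_zmap_le {f : C(I, I)} {a η : ℝ} (h : Adm f a η) : dist (zmap h) f ≤ 2 * a := by
  rw [ContinuousMap.dist_le (by linarith [h.1])]
  intro x
  exact h.zz_close x

/-- Topological transitivity, in the form used in the problem. -/
def IsTrans (f : C(I, I)) : Prop :=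
  ∀ U V : Set I, IsOpen U → IsOpen V → U.Nonempty → V.Nonempty →
    ∃ n : ℕ, 0 < n ∧ ((⇑f)^[n] '' U ∩ V).Nonempty

/-- A nonempty open subset of the unit interval contains a nondegenerate interval. -/
theorem exists_Icc_subset {U : Set I} (hU : IsOpen U) (hne : U.Nonempty) :
    ∃ p q : ℝ, 0 ≤ p ∧ p < q ∧ q ≤ 1 ∧ ∀ x : I, (x : ℝ) ∈ Icc p q → x ∈ U := by
  obtain ⟨x, hx⟩ := hne
  obtain ⟨ε, hε, hball⟩ := Metric.isOpen_iff.1 hU x hx
  have hx0 := x.2.1
  have hx1 := x.2.2
  set δ : ℝ := min ε 1 / 4 with hδ
  have hm : 0 < min ε 1 := lt_min hε one_pos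
  have hδ0 : 0 < δ := by positivity
  have hδ1 : δ ≤ 1 / 4 := by
    have := min_le_right ε (1 : ℝ)
    rw [hδ]; linarith
  have hδε : δ < ε := by
    have := min_le_left ε (1 : ℝ)
    rw [hδ]; linarith
  rcases le_total (x : ℝ) (1 / 2) with h | h
  · refine ⟨x, x + δ, hx0, by linarith, by linarith, ?_⟩
    intro y hy
    apply hball
    rw [Metric.mem_ball]
    show |(y : ℝ) - x| < ε
    rw [abs_lt]
    constructor <;> linarith [hy.1, hy.2]
  · refine ⟨x - δ, x, by linarith, by linarith, by linarith, ?_⟩
    intro y hy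
    apply hball
    rw [Metric.mem_ball]
    show |(y : ℝ) - x| < ε
    rw [abs_lt]
    constructor <;> linarith [hy.1, hy.2]

/-- The zigzag perturbation of a sufficiently chain transitive map is transitive. -/
theorem isTrans_zmap {f : C(I, I)} {a η : ℝ} (h : Adm f a η)
    (hch : a = 1 ∨ ∀ x y : I, Relation.TransGen (Step f (a / 2)) x y) : IsTrans (zmap h) := by
  intro U V hU hV hUn hVn
  obtain ⟨p, q, hp, hpq, hq, hsub⟩ := exists_Icc_subset hU hUn
  obtain ⟨y, hy⟩ := hVn
  obtain ⟨n, hn, x, hx, hxy⟩ := h.reach hch hp hpq hq y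
  have hxI : x ∈ I := ⟨hp.trans hx.1, hx.2.trans hq⟩
  refine ⟨n, hn, y, ⟨⟨x, hxI⟩, hsub _ hx, ?_⟩, hy⟩
  apply Subtype.ext
  rw [zmap_iterate]
  exact hxy

/-! ### Choice of the mesh -/

/-- Pairs of a map and a positive number. -/
abbrev Par : Type := {p : C(I, I) × ℝ // 0 < p.2}

/-- The amplitude. -/
noncomputable def amp (p : Par) : ℝ := min p.1.2 1

theorem amp_pos (p : Par) : 0 < amp p := lt_min p.2 one_pos

theorem continuous_amp : Continuous amp := by
  unfold amp
  fun_prop

theorem exists_mesh : ∃ η : C(Par, ℝ), ∀ p : Par, Adm p.1.1 (amp p) (η p) := by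
  have hconv : ∀ p : Par, Convex ℝ {e : ℝ | Adm p.1.1 (amp p) e} := by
    intro p
    apply Set.OrdConnected.convex
    constructor
    rintro x hx y hy z hz
    have hx' : Adm p.1.1 (amp p) x := hx
    have hy' : Adm p.1.1 (amp p) y := hy
    show Adm p.1.1 (amp p) z
    have ha := amp_pos p
    refine ⟨hy'.1, hy'.2.1, lt_of_lt_of_le hx'.2.2.1 hz.1, hz.2.trans hy'.2.2.2.1, ?_⟩
    intro u v huv
    apply hy'.2.2.2.2
    apply huv.trans
    gcongr
    exact hz.2
  obtain ⟨η, hη⟩ := exists_continuous_forall_mem_convex_of_local_const (X := Par) (E := ℝ)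
    (t := fun p => {e : ℝ | Adm p.1.1 (amp p) e}) hconv (by
      intro p
      set a := amp p with ha
      have hapos : 0 < a := amp_pos p
      -- uniform continuity of the map
      have huc : UniformContinuous (p.1.1 : I → I) :=
        CompactSpace.uniformContinuous_of_continuous p.1.1.continuous
      obtain ⟨δ, hδ, hδ'⟩ := Metric.uniformContinuous_iff.1 huc (a / 64) (by positivity)
      set e : ℝ := min (a / 32) (a * δ / 4) with he
      have hepos : 0 < e := lt_min (by positivity) (by positivity)
      refine ⟨e, ?_⟩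
      -- nearby parameters
      have h1 : ∀ᶠ q : Par in 𝓝 p, a / 2 < amp q :=
        (continuous_amp.tendsto p).eventually (lt_mem_nhds (by rw [← ha]; linarith))
      have h2 : ∀ᶠ q : Par in 𝓝 p, dist q.1.1 p.1.1 < a / 128 := by
        have hc : Continuous fun q : Par => q.1.1 := by fun_prop
        have := (hc.tendsto p).eventually (Metric.ball_mem_nhds p.1.1 (by positivity : 0 < a / 128))
        exact this
      filter_upwards [h1, h2] with q hq1 hq2
      show Adm q.1.1 (amp q) e
      have hq0 := amp_pos q
      refine ⟨hq0, min_le_right _ _, hepos, ?_, ?_⟩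
      · have : e ≤ a / 32 := min_le_left _ _
        linarith
      · intro u v huv
        have huv' : dist u v < δ := by
          have h3 : e / amp q ≤ e / (a / 2) := by gcongr
          have h4 : e / (a / 2) ≤ δ / 2 := by
            rw [div_le_iff₀ (by positivity)]
            have : e ≤ a * δ / 4 := min_le_right _ _
            linarith
          have h5 : dist u v = |(u : ℝ) - v| := rfl
          rw [h5]
          linarith
        have h6 : dist (p.1.1 u) (p.1.1 v) < a / 64 := hδ' huv'
        have h7 : dist (q.1.1 u) (p.1.1 u) < a / 128 :=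
          (ContinuousMap.dist_apply_le_dist u).trans_lt hq2
        have h8 : dist (q.1.1 v) (p.1.1 v) < a / 128 :=
          (ContinuousMap.dist_apply_le_dist v).trans_lt hq2
        have h9 : dist (q.1.1 u) (q.1.1 v) ≤
            dist (q.1.1 u) (p.1.1 u) + dist (p.1.1 u) (p.1.1 v) + dist (p.1.1 v) (q.1.1 v) :=
          dist_triangle4 _ _ _ _
        rw [dist_comm (p.1.1 v)] at h9
        have h10 : dist (q.1.1 u) (q.1.1 v) = |(q.1.1 u : ℝ) - q.1.1 v| := rfl
        rw [← h10]
        linarith)
  exact ⟨η, fun p => hη p⟩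

/-- The mesh. -/
noncomputable def mesh : C(Par, ℝ) := exists_mesh.choose

theorem adm_mesh (p : Par) : Adm p.1.1 (amp p) (mesh p) := exists_mesh.choose_spec p

/-- The perturbation operator. -/
noncomputable def op (p : Par) : C(I, I) := zmap (adm_mesh p)

theorem continuous_op : Continuous op := by
  apply ContinuousMap.continuous_of_continuous_uncurry
  have h : Continuous fun z : Par × I =>
      zz z.1.1.1 (amp z.1) (mesh z.1) (z.2 : ℝ) := by
    unfold zz unf
    apply continuous_fold.comp
    have hm : Continuous fun z : Par × I => mesh z.1 := mesh.continuous.comp continuous_fst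
    have ha : Continuous fun z : Par × I => amp z.1 := continuous_amp.comp continuous_fst
    have hx : Continuous fun z : Par × I => (z.2 : ℝ) := continuous_subtype_val.comp continuous_snd
    have hf : Continuous fun z : Par × I => z.1.1.1 := by fun_prop
    have hne : ∀ z : Par × I, mesh z.1 ≠ 0 := fun z => (adm_mesh z.1).2.2.1.ne'
    have h1 : Continuous fun z : Par × I => amp z.1 / mesh z.1 := ha.div hm hne
    have h2 : Continuous fun z : Par × I => (z.2 : ℝ) / mesh z.1 := hx.div hm hne
    have h3 : Continuous fun z : Par × I => lip z.1.1.1 (amp z.1 / mesh z.1) (z.2 : ℝ) :=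
      continuous_lip.comp (hf.prodMk (h1.prodMk hx))
    exact h3.add (ha.mul (continuous_zig.comp h2))
  exact h.subtype_mk _

theorem dist_op_le (p : Par) : dist (op p) p.1.1 ≤ 2 * p.1.2 :=
  (dist_zmap_le _).trans (by
    have : amp p ≤ p.1.2 := min_le_left _ _
    linarith)

/-! ### Chain transitivity -/

/-- A map is chain transitive if for all `ε > 0` any two points are joined by an `ε`-chain. -/
def IsChainTrans (f : C(I, I)) : Prop := ∀ ε > 0, ∀ x y : I, Relation.TransGen (Step f ε) x y

theorem IsTrans.chain {f : C(I, I)} (hf : IsTrans f) : IsChainTrans f := by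
  intro ε hε x y
  obtain ⟨n, hn, z, ⟨u, hu, rfl⟩, hz⟩ := hf (Metric.ball (f x) ε) (Metric.ball y ε)
    Metric.isOpen_ball Metric.isOpen_ball ⟨f x, Metric.mem_ball_self hε⟩
    ⟨y, Metric.mem_ball_self hε⟩
  -- follow the orbit
  have hfirst : Step f ε x u := by
    have : dist u (f x) < ε := hu
    show dist (f x) u < ε
    rwa [dist_comm]
  have horb : ∀ k : ℕ, Relation.TransGen (Step f ε) x ((⇑f)^[k] u) := by
    intro k
    induction k with
    | zero => exact Relation.TransGen.single hfirst
    | succ k ih =>
      refine ih.tail ?_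
      show dist (f ((⇑f)^[k] u)) ((⇑f)^[k + 1] u) < ε
      rw [Function.iterate_succ_apply', dist_self]
      exact hε
  obtain ⟨k, rfl⟩ : ∃ k, n = k + 1 := ⟨n - 1, by omega⟩
  refine (horb k).tail ?_
  show dist (f ((⇑f)^[k] u)) y < ε
  rw [← Function.iterate_succ_apply' (⇑f) k u]
  exact hz

theorem Step.of_dist {f g : C(I, I)} {ε δ : ℝ} (hfg : dist f g ≤ δ) {x y : I}
    (h : Step g ε x y) : Step f (ε + δ) x y := by
  have h1 : dist (f x) (g x) ≤ δ := (ContinuousMap.dist_apply_le_dist x).trans hfg
  have h2 : dist (g x) y < ε := h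
  show dist (f x) y < ε + δ
  have := dist_triangle (f x) (g x) y
  linarith

/-- A map at small distance from the transitive maps is chain transitive at a slightly larger
scale. -/
theorem chain_of_infDist {f : C(I, I)} {ε : ℝ} (hne : {g : C(I, I) | IsTrans g}.Nonempty)
    (h : Metric.infDist f {g : C(I, I) | IsTrans g} < ε) (x y : I) :
    Relation.TransGen (Step f ε) x y := by
  obtain ⟨g, hg, hfg⟩ := (Metric.infDist_lt_iff hne).1 h
  have hg' : IsTrans g := hg
  have h1 := hg'.chain (ε - dist f g) (by linarith) x y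
  have h2 : ∀ u v, Step g (ε - dist f g) u v → Step f ε u v := by
    intro u v huv
    have := Step.of_dist (le_refl (dist f g)) huv
    rwa [sub_add_cancel] at this
  exact Relation.TransGen.mono h2 _ _ h1

theorem trans_nonempty : {g : C(I, I) | IsTrans g}.Nonempty := by
  let p : Par := ⟨(ContinuousMap.id I, 1), one_pos⟩
  refine ⟨op p, ?_⟩
  apply isTrans_zmap
  left
  show min (1 : ℝ) 1 = 1
  simp

/-- If `f` is closer than `p.2 / 2` to the transitive maps then the perturbation is transitive. -/
theorem isTrans_op (p : Par)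
    (h : Metric.infDist p.1.1 {g : C(I, I) | IsTrans g} < p.1.2 / 2) : IsTrans (op p) := by
  apply isTrans_zmap
  rcases le_total 1 p.1.2 with h1 | h1
  · left
    exact min_eq_right h1
  · right
    have : amp p = p.1.2 := min_eq_left h1
    rw [this]
    exact chain_of_infDist trans_nonempty h

/-- The closure of the set of transitive maps is the set of chain transitive maps. -/
theorem closure_trans : closure {g : C(I, I) | IsTrans g} = {g : C(I, I) | IsChainTrans g} := by
  apply Subset.antisymm
  · intro f hf ε hε x y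
    apply chain_of_infDist trans_nonempty
    rw [(Metric.mem_closure_iff_infDist_zero trans_nonempty).1 hf]
    exact hε
  · intro f hf
    have hf' : IsChainTrans f := hf
    rw [Metric.mem_closure_iff]
    intro ε hε
    let p : Par := ⟨(f, ε / 4), by positivity⟩
    refine ⟨op p, ?_, ?_⟩
    · show IsTrans (op p)
      apply isTrans_zmap
      right
      exact hf' _ (half_pos (amp_pos p))
    · rw [dist_comm]
      have h1 : dist (op p) f ≤ 2 * (ε / 4) := dist_op_le p
      linarith

/-! ### The retraction -/

open Classical in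
/-- The deformation. -/
noncomputable def defo (z : C(I, I) × I) : C(I, I) :=
  if h : 0 < 4 * Metric.infDist z.1 {g : C(I, I) | IsTrans g} + (z.2 : ℝ) then
    op ⟨(z.1, 4 * Metric.infDist z.1 {g : C(I, I) | IsTrans g} + (z.2 : ℝ)), h⟩
  else z.1

theorem dist_defo_le (z : C(I, I) × I) :
    dist (defo z) z.1 ≤ 2 * (4 * Metric.infDist z.1 {g : C(I, I) | IsTrans g} + (z.2 : ℝ)) := by
  unfold defo
  split_ifs with h
  · exact dist_op_le _
  · rw [dist_self]
    have h1 : 0 ≤ Metric.infDist z.1 {g : C(I, I) | IsTrans g} := Metric.infDist_nonneg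
    have h2 := z.2.2.1
    linarith

theorem continuous_defo : Continuous defo := by
  set s : C(I, I) × I → ℝ := fun z => 4 * Metric.infDist z.1 {g : C(I, I) | IsTrans g} + (z.2 : ℝ)
    with hs
  have hsc : Continuous s := by
    have := Metric.continuous_infDist_pt {g : C(I, I) | IsTrans g}
    have h1 : Continuous fun z : C(I, I) × I => Metric.infDist z.1 {g : C(I, I) | IsTrans g} :=
      this.comp continuous_fst
    fun_prop
  have hs0 : ∀ z, 0 ≤ s z := by
    intro z
    have h1 : 0 ≤ Metric.infDist z.1 {g : C(I, I) | IsTrans g} := Metric.infDist_nonneg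
    have h2 := z.2.2.1
    rw [hs]
    show 0 ≤ 4 * Metric.infDist z.1 {g : C(I, I) | IsTrans g} + (z.2 : ℝ)
    linarith
  rw [continuous_iff_continuousAt]
  intro z
  rcases (hs0 z).lt_or_eq with hz | hz
  · -- near `z` the deformation is given by the operator
    have hopen : IsOpen {w | 0 < s w} := isOpen_lt continuous_const hsc
    have hon : ContinuousOn defo {w | 0 < s w} := by
      rw [continuousOn_iff_continuous_domRestrict]
      have heq : ({w | 0 < s w}.domRestrict defo) =
          fun w : {w | 0 < s w} => op ⟨(w.1.1, s w.1), w.2⟩ := by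
        funext w
        have hw : 0 < s w.1 := w.2
        show defo w.1 = _
        unfold defo
        rw [dif_pos hw]
      rw [heq]
      apply continuous_op.comp
      apply Continuous.subtype_mk
      fun_prop
    exact hon.continuousAt (hopen.mem_nhds hz)
  · -- at the zero level the deformation is close to the first projection
    have hval : defo z = z.1 := by
      unfold defo
      rw [dif_neg]
      have : s z = 0 := hz.symm
      show ¬ 0 < s z
      rw [this]; exact lt_irrefl _
    rw [ContinuousAt, hval, tendsto_iff_dist_tendsto_zero]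
    have hb : Tendsto (fun w : C(I, I) × I => 2 * s w + dist w.1 z.1) (𝓝 z) (𝓝 0) := by
      have h1 : Continuous fun w : C(I, I) × I => 2 * s w + dist w.1 z.1 := by fun_prop
      have h2 := h1.tendsto z
      rw [← hz] at h2
      simpa using h2
    refine squeeze_zero (fun _ => dist_nonneg) ?_ hb
    intro w
    have h1 := dist_defo_le w
    have h2 := dist_triangle (defo w) w.1 z.1
    have h3 : s w = 4 * Metric.infDist w.1 {g : C(I, I) | IsTrans g} + (w.2 : ℝ) := rfl
    linarith

theorem defo_zero {f : C(I, I)} (hf : f ∈ closure {g : C(I, I) | IsTrans g}) :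
    defo (f, 0) = f := by
  unfold defo
  rw [dif_neg]
  rw [(Metric.mem_closure_iff_infDist_zero trans_nonempty).1 hf]
  simp

theorem isTrans_defo {f : C(I, I)} {t : I}
    (h : f ∉ closure {g : C(I, I) | IsTrans g} ∨ t ≠ 0) : IsTrans (defo (f, t)) := by
  have hd : 0 ≤ Metric.infDist f {g : C(I, I) | IsTrans g} := Metric.infDist_nonneg
  have ht := t.2.1
  have hpos : 0 < 4 * Metric.infDist f {g : C(I, I) | IsTrans g} + (t : ℝ) := by
    rcases h with h | h
    · have : Metric.infDist f {g : C(I, I) | IsTrans g} ≠ 0 := fun h0 =>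
        h ((Metric.mem_closure_iff_infDist_zero trans_nonempty).2 h0)
      have : 0 < Metric.infDist f {g : C(I, I) | IsTrans g} := lt_of_le_of_ne hd (Ne.symm this)
      linarith
    · have : (t : ℝ) ≠ 0 := fun h0 => h (Subtype.ext h0)
      have : 0 < (t : ℝ) := lt_of_le_of_ne ht (Ne.symm this)
      linarith
  unfold defo
  rw [dif_pos hpos]
  apply isTrans_op
  show Metric.infDist f {g : C(I, I) | IsTrans g} <
    (4 * Metric.infDist f {g : C(I, I) | IsTrans g} + (t : ℝ)) / 2
  linarith

end Pool.Agent.Lib.Pc7f692
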