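import Mathlib
import Pool.Agent.Lib.Pc7f692.Operator

open Set Filter Topology
open scoped unitInterval

namespace Pool.Agent.Lib.Pc7f692

/-! ### Gluing an operator with the identity -/

open Classical in
/-- Glue an operator with the first coordinate at parameter zero. -/
noncomputable def glue {Z : Type*} (O : Par → C(I, I)) (φ : Z → C(I, I)) (s : Z → ℝ) (z : Z) :
    C(I, I) :=
  if h : 0 < s z then O ⟨(φ z, s z), h⟩ else φ z

theorem continuous_glue {Z : Type*} [TopologicalSpace Z] {O : Par → C(I, I)} (hO : Continuous O)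
    (hOd : ∀ p, dist (O p) p.1.1 ≤ 2 * p.1.2) {φ : Z → C(I, I)} (hφ : Continuous φ) {s : Z → ℝ}
    (hs : Continuous s) (hs0 : ∀ z, 0 ≤ s z) : Continuous (glue O φ s) := by
  have hdist : ∀ z, dist (glue O φ s z) (φ z) ≤ 2 * s z := by
    intro z
    unfold glue
    split_ifs with h
    · exact hOd _
    · rw [dist_self]; linarith [hs0 z]
  rw [continuous_iff_continuousAt]
  intro z
  rcases (hs0 z).lt_or_eq with hz | hz
  · have hopen : IsOpen {w | 0 < s w} := isOpen_lt continuous_const hs
    have hon : ContinuousOn (glue O φ s) {w | 0 < s w} := by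
      rw [continuousOn_iff_continuous_domRestrict]
      have heq : ({w | 0 < s w}.domRestrict (glue O φ s)) =
          fun w : {w | 0 < s w} => O ⟨(φ w.1, s w.1), w.2⟩ := by
        funext w
        have hw : 0 < s w.1 := w.2
        show glue O φ s w.1 = _
        unfold glue
        rw [dif_pos hw]
      rw [heq]
      apply hO.comp
      apply Continuous.subtype_mk
      fun_prop
    exact hon.continuousAt (hopen.mem_nhds hz)
  · have hval : glue O φ s z = φ z := by
      unfold glue
      rw [dif_neg]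
      rw [← hz]; exact lt_irrefl _
    rw [ContinuousAt, hval, tendsto_iff_dist_tendsto_zero]
    have hb : Tendsto (fun w : Z => 2 * s w + dist (φ w) (φ z)) (𝓝 z) (𝓝 0) := by
      have h1 : Continuous fun w : Z => 2 * s w + dist (φ w) (φ z) := by fun_prop
      have h2 := h1.tendsto z
      rw [← hz] at h2
      simpa using h2
    refine squeeze_zero (fun _ => dist_nonneg) ?_ hb
    intro w
    have h1 := hdist w
    have h2 := dist_triangle (glue O φ s w) (φ w) (φ z)
    linarith

/-! ### The distance to the nearest integer, the staircase and the bump -/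

/-- Distance to the nearest integer. -/
noncomputable def nint (u : ℝ) : ℝ := (zig u + 1) / 4

theorem continuous_nint : Continuous nint := by
  unfold nint
  have := continuous_zig
  fun_prop

theorem nint_up (k : ℕ) {u : ℝ} (h1 : (k : ℝ) ≤ u) (h2 : u ≤ k + 1 / 2) : nint u = u - k := by
  unfold nint; rw [zig_up k h1 h2]; ring

theorem nint_down (k : ℕ) {u : ℝ} (h1 : (k : ℝ) + 1 / 2 ≤ u) (h2 : u ≤ k + 1) :
    nint u = k + 1 - u := by
  unfold nint; rw [zig_down k h1 h2]; ring

theorem nint_nonneg (u : ℝ) : 0 ≤ nint u := by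
  have := abs_zig_le u
  rw [abs_le] at this
  unfold nint; linarith [this.1]

theorem nint_le (u : ℝ) : nint u ≤ 1 / 2 := by
  have := abs_zig_le u
  rw [abs_le] at this
  unfold nint; linarith [this.2]

/-- The bump located in the second half of each period. -/
noncomputable def bump (u : ℝ) : ℝ := max 0 (min 1 (2 - 8 * nint (u + 1 / 4)))

theorem continuous_bump : Continuous bump := by
  unfold bump
  have h := continuous_nint
  have h2 : Continuous fun u : ℝ => nint (u + 1 / 4) := h.comp (by fun_prop)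
  fun_prop

theorem bump_nonneg (u : ℝ) : 0 ≤ bump u := le_max_left _ _

theorem bump_le_one (u : ℝ) : bump u ≤ 1 := by
  unfold bump
  exact max_le (by norm_num) (min_le_left _ _)

theorem bump_eq_zero (k : ℕ) {u : ℝ} (h1 : (k : ℝ) ≤ u) (h2 : u ≤ k + 1 / 2) : bump u = 0 := by
  unfold bump
  apply max_eq_left
  apply (min_le_right _ _).trans
  rcases le_total u (k + 1 / 4) with h | h
  · rw [nint_up k (by linarith) (by linarith)]; linarith
  · rw [nint_down k (by linarith) (by linarith)]; linarith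

theorem bump_eq_one (k : ℕ) {u : ℝ} (h1 : (k : ℝ) + 5 / 8 ≤ u) (h2 : u ≤ k + 7 / 8) :
    bump u = 1 := by
  unfold bump
  have h : nint (u + 1 / 4) ≤ 1 / 8 := by
    rcases le_total u (k + 3 / 4) with h | h
    · rw [nint_down k (by linarith) (by linarith)]; linarith
    · rw [nint_up (k + 1) (by push_cast; linarith) (by push_cast; linarith)]
      push_cast; linarith
  rw [min_eq_left (by linarith), max_eq_right (by norm_num)]

/-- The staircase: identity plus distance to the nearest integer. -/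
noncomputable def stair (u : ℝ) : ℝ := u + nint u

theorem continuous_stair : Continuous stair := by
  unfold stair
  have := continuous_nint
  fun_prop

/-- Truncation to `[-κ, κ]`. -/
def clampK (κ z : ℝ) : ℝ := max (-κ) (min κ z)

theorem clampK_eq {κ z : ℝ} (h : |z| ≤ κ) : clampK κ z = z := by
  rw [abs_le] at h
  unfold clampK
  rw [min_eq_right h.2, max_eq_right h.1]

theorem abs_clampK_le {κ : ℝ} (hκ : 0 ≤ κ) (z : ℝ) : |clampK κ z| ≤ κ := by
  unfold clampK
  rw [abs_le]
  exact ⟨le_max_left _ _, max_le (by linarith) (min_le_left _ _)⟩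

theorem clampK_nonneg {κ z : ℝ} (hκ : 0 ≤ κ) (hz : 0 ≤ z) : 0 ≤ clampK κ z ∧ clampK κ z ≤ z := by
  unfold clampK
  have h : 0 ≤ min κ z := le_min hκ hz
  rw [max_eq_right (by linarith)]
  exact ⟨h, min_le_right _ _⟩

theorem clampK_nonpos {κ z : ℝ} (hκ : 0 ≤ κ) (hz : z ≤ 0) : z ≤ clampK κ z ∧ clampK κ z ≤ 0 := by
  unfold clampK
  rw [min_eq_right (by linarith)]
  exact ⟨le_max_right _ _, max_le (by linarith) hz⟩

/-- Extension of an interval map to the line by constants. -/
noncomputable def ext (f : C(I, I)) (y : ℝ) : ℝ := f (projIcc 0 1 zero_le_one y)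

theorem ext_mem (f : C(I, I)) (y : ℝ) : ext f y ∈ I := (f _).2

theorem ext_coe (f : C(I, I)) (x : I) : ext f x = f x := by
  unfold ext; rw [projIcc_val]

theorem ext_of_mem (f : C(I, I)) {y : ℝ} (hy : y ∈ I) : ext f y = f ⟨y, hy⟩ := by
  unfold ext; rw [projIcc_of_mem _ hy]

section

variable (f : C(I, I)) (κ η : ℝ)

/-- The point to which the plateau is compared. -/
noncomputable def cen (x : ℝ) : ℝ := max 0 (min (η * stair (x / η) - η / 4) 1)

/-- The trapping perturbation. -/
noncomputable def tz (x : ℝ) : ℝ :=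
  ext f (η * stair (x / η)) + bump (x / η) * clampK κ (cen η x - ext f (η * stair (x / η)))

variable {f κ η}

theorem tz_mem (hκ : 0 ≤ κ) (x : ℝ) : tz f κ η x ∈ I := by
  have h1 := ext_mem f (η * stair (x / η))
  have h2 := bump_nonneg (x / η)
  have h3 := bump_le_one (x / η)
  have h4 : 0 ≤ cen η x := le_max_left _ _
  have h5 : cen η x ≤ 1 := max_le (by norm_num) (min_le_right _ _)
  unfold tz
  rcases le_total 0 (cen η x - ext f (η * stair (x / η))) with h | h
  · obtain ⟨h6, h7⟩ := clampK_nonneg hκ h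
    constructor
    · nlinarith [h1.1]
    · nlinarith [h1.2]
  · obtain ⟨h6, h7⟩ := clampK_nonpos hκ h
    constructor
    · nlinarith [h1.1]
    · nlinarith [h1.2]

theorem tz_close (h : Adm f κ η) (x : I) : |tz f κ η x - f x| ≤ 2 * κ := by
  obtain ⟨hκ, hκ1, hη, hη1, hosc⟩ := h
  have h1 : |ext f (η * stair ((x : ℝ) / η)) - f x| ≤ κ / 16 := by
    unfold ext
    apply hosc
    have h2 : |(projIcc 0 1 zero_le_one (η * stair ((x : ℝ) / η)) : ℝ) - x| ≤
        |η * stair ((x : ℝ) / η) - x| := by
      have := abs_projIcc_sub_projIcc (a := (0 : ℝ)) (b := 1) (c := η * stair ((x : ℝ) / η))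
        (d := (x : ℝ)) zero_le_one
      rw [projIcc_val] at this
      exact this
    apply h2.trans
    have h3 : η * stair ((x : ℝ) / η) - x = η * nint ((x : ℝ) / η) := by
      unfold stair; field_simp; ring
    rw [h3, abs_of_nonneg (mul_nonneg hη.le (nint_nonneg _))]
    have h4 := nint_le ((x : ℝ) / η)
    rw [le_div_iff₀ hκ]
    have h5 : η * nint ((x : ℝ) / η) ≤ η * (1 / 2) := by gcongr
    have h6 := mul_nonneg hη.le (nint_nonneg ((x : ℝ) / η))
    nlinarith
  have h7 : |bump ((x : ℝ) / η) * clampK κ (cen η x - ext f (η * stair ((x : ℝ) / η)))| ≤ κ := by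
    rw [abs_mul, abs_of_nonneg (bump_nonneg _)]
    have := abs_clampK_le hκ.le (cen η x - ext f (η * stair ((x : ℝ) / η)))
    have h8 := bump_le_one ((x : ℝ) / η)
    have h9 := bump_nonneg ((x : ℝ) / η)
    nlinarith [abs_nonneg (clampK κ (cen η x - ext f (η * stair ((x : ℝ) / η))))]
  have h10 : tz f κ η x - f x = (ext f (η * stair ((x : ℝ) / η)) - f x)
      + bump ((x : ℝ) / η) * clampK κ (cen η x - ext f (η * stair ((x : ℝ) / η))) := by
    unfold tz; ring
  rw [h10]
  calc _ ≤ _ := abs_add_le _ _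
    _ ≤ κ / 16 + κ := add_le_add h1 h7
    _ ≤ 2 * κ := by linarith

/-- The trapping perturbation of a surjective map is surjective. -/
theorem tz_surj (h : Adm f κ η) (hf : Function.Surjective f) (y : I) :
    ∃ x : I, tz f κ η x = y := by
  obtain ⟨hκ, hκ1, hη, hη1, hosc⟩ := h
  obtain ⟨z, rfl⟩ := hf y
  have hz0 := z.2.1
  have hz1 := z.2.2
  set j : ℕ := ⌊(z : ℝ) / η⌋₊ with hj
  have hj1 : (j : ℝ) * η ≤ z := by
    have := Nat.floor_le (by positivity : 0 ≤ (z : ℝ) / η)
    rw [← hj] at this
    rwa [le_div_iff₀ hη] at this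
  have hj2 : (z : ℝ) < ((j : ℝ) + 1) * η := by
    have := Nat.lt_floor_add_one ((z : ℝ) / η)
    rw [← hj] at this
    rwa [div_lt_iff₀ hη] at this
  set x : ℝ := (j * η + z) / 2 with hx
  have hjη : 0 ≤ (j : ℝ) * η := by positivity
  have hxI : x ∈ I := ⟨by positivity, by linarith⟩
  refine ⟨⟨x, hxI⟩, ?_⟩
  have hu1 : (j : ℝ) ≤ x / η := by rw [le_div_iff₀ hη]; linarith
  have hu2 : x / η ≤ j + 1 / 2 := by rw [div_le_iff₀ hη]; linarith
  have hst : η * stair (x / η) = z := by
    unfold stair
    rw [nint_up j hu1 hu2]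
    have : η * (x / η + (x / η - j)) = 2 * x - j * η := by field_simp; ring
    rw [this, hx]; ring
  unfold tz
  simp only
  rw [bump_eq_zero j hu1 hu2, hst, ext_coe]
  ring

/-- The trapping perturbation has a plateau whose value is inside the plateau. -/
theorem tz_trap (h : Adm f κ η) : ∃ c d e : ℝ, 0 ≤ c ∧ c < e ∧ e < d ∧ d < 1 ∧
    ∀ x ∈ Icc c d, tz f κ η x = e := by
  have h' := h
  obtain ⟨hκ, hκ1, hη, hη1, hosc⟩ := h
  -- a fixed point
  obtain ⟨z, hz⟩ : ∃ z : I, f z = z := by
    have hc : ContinuousOn (fun x : ℝ => ext f x - x) (Icc 0 1) := by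
      apply Continuous.continuousOn
      unfold ext
      have : Continuous fun x : ℝ => ((f (projIcc 0 1 zero_le_one x) : I) : ℝ) :=
        continuous_subtype_val.comp (f.continuous.comp continuous_projIcc)
      fun_prop
    have h0 : ext f 1 - 1 ≤ 0 := by linarith [(ext_mem f 1).2]
    have h1 : 0 ≤ ext f 0 - 0 := by linarith [(ext_mem f 0).1]
    obtain ⟨x, hx, hx0⟩ := intermediate_value_Icc' (by norm_num : (0 : ℝ) ≤ 1) hc ⟨h0, h1⟩
    refine ⟨⟨x, hx⟩, Subtype.ext ?_⟩
    have hx0' : ext f x - x = 0 := hx0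
    rw [ext_of_mem f hx] at hx0'
    show ((f ⟨x, hx⟩ : I) : ℝ) = x
    linarith
  have hz0 := z.2.1
  have hz1 := z.2.2
  -- a cell close to the fixed point
  obtain ⟨j, hj1, hj2⟩ : ∃ j : ℕ, ((j : ℝ) + 1) * η ≤ 1 ∧ |((j : ℝ) + 1) * η - z| ≤ η := by
    set k : ℕ := ⌊(z : ℝ) / η⌋₊ with hk
    have hk1 : (k : ℝ) * η ≤ z := by
      have := Nat.floor_le (by positivity : 0 ≤ (z : ℝ) / η)
      rw [← hk] at this
      rwa [le_div_iff₀ hη] at this
    have hk2 : (z : ℝ) < ((k : ℝ) + 1) * η := by
      have := Nat.lt_floor_add_one ((z : ℝ) / η)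
      rw [← hk] at this
      rwa [div_lt_iff₀ hη] at this
    rcases le_or_gt (((k : ℝ) + 1) * η) 1 with h | h
    · refine ⟨k, h, ?_⟩
      rw [abs_le]; constructor <;> linarith
    · obtain ⟨i, hi⟩ : ∃ i, k = i + 1 := by
        rcases Nat.eq_zero_or_pos k with h0 | h0
        · rw [h0] at h; push_cast at h; linarith
        · exact ⟨k - 1, by omega⟩
      rw [hi] at hk1 hk2 h
      push_cast at hk1 hk2 h
      refine ⟨i, by linarith, ?_⟩
      rw [abs_le]; constructor <;> linarith
  have hjη : 0 ≤ (j : ℝ) * η := by positivity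
  refine ⟨((j : ℝ) + 5 / 8) * η, ((j : ℝ) + 7 / 8) * η, ((j : ℝ) + 3 / 4) * η, by positivity,
    by nlinarith, by nlinarith, by nlinarith, ?_⟩
  intro x hx
  have hu1 : (j : ℝ) + 5 / 8 ≤ x / η := by rw [le_div_iff₀ hη]; exact hx.1
  have hu2 : x / η ≤ j + 7 / 8 := by rw [div_le_iff₀ hη]; exact hx.2
  have hst : η * stair (x / η) = ((j : ℝ) + 1) * η := by
    unfold stair
    rw [nint_down j (by linarith) (by linarith)]
    ring
  have hmem : ((j : ℝ) + 1) * η ∈ I := ⟨by positivity, hj1⟩
  have hcen : cen η x = ((j : ℝ) + 3 / 4) * η := by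
    unfold cen
    rw [hst]
    have h1 : ((j : ℝ) + 1) * η - η / 4 = ((j : ℝ) + 3 / 4) * η := by ring
    rw [h1, min_eq_left (by nlinarith), max_eq_right (by positivity)]
  have hclose : |((j : ℝ) + 3 / 4) * η - ext f (((j : ℝ) + 1) * η)| ≤ κ := by
    rw [ext_of_mem f hmem]
    have h1 : |((z : I) : ℝ) - (⟨((j : ℝ) + 1) * η, hmem⟩ : I)| ≤ η / κ := by
      rw [abs_sub_comm]
      apply hj2.trans
      rw [le_div_iff₀ hκ]
      nlinarith
    have h2 := hosc z ⟨((j : ℝ) + 1) * η, hmem⟩ h1
    rw [hz] at h2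
    have h3 : ((j : ℝ) + 3 / 4) * η - (f ⟨((j : ℝ) + 1) * η, hmem⟩ : ℝ)
      = (((j : ℝ) + 1) * η - z) + ((z : ℝ) - f ⟨((j : ℝ) + 1) * η, hmem⟩) - η / 4 := by ring
    rw [h3]
    rw [abs_le] at h2 hj2 ⊢
    constructor <;> linarith [h2.1, h2.2, hj2.1, hj2.2]
  unfold tz
  rw [bump_eq_one j hu1 hu2, hst, hcen, clampK_eq hclose]
  ring

end

/-- The trapping perturbation as a self-map of the interval. -/
noncomputable def tmap (p : Par) : C(I, I) where
  toFun x := ⟨tz p.1.1 (amp p) (mesh p) x, tz_mem (amp_pos p).le x⟩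
  continuous_toFun := by
    apply Continuous.subtype_mk
    unfold tz cen ext clampK
    have h1 := continuous_stair
    have h2 := continuous_bump
    have h3 : Continuous fun x : I => mesh p * stair ((x : ℝ) / mesh p) :=
      continuous_const.mul (h1.comp (by fun_prop))
    have h4 : Continuous fun x : I => bump ((x : ℝ) / mesh p) := h2.comp (by fun_prop)
    have h5 : Continuous fun x : I =>
        ((p.1.1 (projIcc 0 1 zero_le_one (mesh p * stair ((x : ℝ) / mesh p))) : I) : ℝ) :=
      continuous_subtype_val.comp (p.1.1.continuous.comp (continuous_projIcc.comp h3))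
    fun_prop

theorem tmap_coe (p : Par) (x : I) : ((tmap p x : I) : ℝ) = tz p.1.1 (amp p) (mesh p) x := rfl

theorem continuous_tmap : Continuous tmap := by
  apply ContinuousMap.continuous_of_continuous_uncurry
  have h : Continuous fun z : Par × I =>
      tz z.1.1.1 (amp z.1) (mesh z.1) (z.2 : ℝ) := by
    unfold tz cen ext clampK
    have hm : Continuous fun z : Par × I => mesh z.1 := mesh.continuous.comp continuous_fst
    have ha : Continuous fun z : Par × I => amp z.1 := continuous_amp.comp continuous_fst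
    have hx : Continuous fun z : Par × I => (z.2 : ℝ) := continuous_subtype_val.comp continuous_snd
    have hf : Continuous fun z : Par × I => z.1.1.1 := by fun_prop
    have hne : ∀ z : Par × I, mesh z.1 ≠ 0 := fun z => (adm_mesh z.1).2.2.1.ne'
    have h2 : Continuous fun z : Par × I => (z.2 : ℝ) / mesh z.1 := hx.div hm hne
    have h3 : Continuous fun z : Par × I => mesh z.1 * stair ((z.2 : ℝ) / mesh z.1) :=
      hm.mul (continuous_stair.comp h2)
    have h4 : Continuous fun z : Par × I => bump ((z.2 : ℝ) / mesh z.1) := continuous_bump.comp h2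
    have h5 : Continuous fun z : Par × I =>
        z.1.1.1 (projIcc 0 1 zero_le_one (mesh z.1 * stair ((z.2 : ℝ) / mesh z.1))) :=
      hf.eval (continuous_projIcc.comp h3)
    have h6 : Continuous fun z : Par × I =>
        ((z.1.1.1 (projIcc 0 1 zero_le_one (mesh z.1 * stair ((z.2 : ℝ) / mesh z.1))) : I) : ℝ) :=
      continuous_subtype_val.comp h5
    fun_prop
  exact h.subtype_mk _

theorem dist_tmap_le (p : Par) : dist (tmap p) p.1.1 ≤ 2 * p.1.2 := by
  rw [ContinuousMap.dist_le (by linarith [p.2])]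
  intro x
  have h1 := tz_close (adm_mesh p) x
  have h2 : amp p ≤ p.1.2 := min_le_left _ _
  have h3 : dist (tmap p x) (p.1.1 x) = |tz p.1.1 (amp p) (mesh p) x - p.1.1 x| := rfl
  rw [h3]
  linarith

theorem tmap_surj (p : Par) (hf : Function.Surjective p.1.1) : Function.Surjective (tmap p) := by
  intro y
  obtain ⟨x, hx⟩ := tz_surj (adm_mesh p) hf y
  exact ⟨x, Subtype.ext hx⟩

/-- The trapping perturbation is never a limit of transitive maps. -/
theorem tmap_notMem (p : Par) : tmap p ∉ closure {g : C(I, I) | IsTrans g} := by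
  intro hmem
  rw [closure_trans] at hmem
  have hch : IsChainTrans (tmap p) := hmem
  obtain ⟨c, d, e, hc, hce, hed, hd, htz⟩ := tz_trap (adm_mesh p)
  set ε : ℝ := min (e - c) (d - e) with hε
  have hεpos : 0 < ε := lt_min (by linarith) (by linarith)
  have heI : e ∈ I := ⟨by linarith, by linarith⟩
  have hchain := hch ε hεpos ⟨e, heI⟩ 1
  have key : ∀ z, Relation.TransGen (Step (tmap p) ε) ⟨e, heI⟩ z → (z : ℝ) ∈ Ioo c d := by
    have hstep : ∀ z w : I, (z : ℝ) ∈ Icc c d → Step (tmap p) ε z w → (w : ℝ) ∈ Ioo c d := by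
      intro z w hz hw
      have h1 : |tz p.1.1 (amp p) (mesh p) z - w| < ε := hw
      rw [htz z hz, abs_lt] at h1
      have h2 : ε ≤ e - c := min_le_left _ _
      have h3 : ε ≤ d - e := min_le_right _ _
      exact ⟨by linarith [h1.2], by linarith [h1.1]⟩
    intro z hz
    induction hz with
    | single hb => exact hstep _ _ ⟨hce.le, hed.le⟩ hb
    | tail _ hbc ih => exact hstep _ _ ⟨ih.1.le, ih.2.le⟩ hbc
  have h1 := (key 1 hchain).2
  have h2 : ((1 : I) : ℝ) = 1 := rfl
  rw [h2] at h1
  linarith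

end Pool.Agent.Lib.Pc7f692
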