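import Mathlib
import Pool.Agent.Lib.Pc7f692.Operator

open Set Filter Topology
open scoped unitInterval

namespace Pool.Agent.Lib.Pc7f692

theorem exists_meshN (b : ℝ) (hb : 0 < b) :
    ∃ η : C(Par, ℝ), ∀ p : Par, Adm p.1.1 (amp p) (η p) ∧ η p ≤ b := by
  -- truncate the mesh
  refine ⟨⟨fun p => min (mesh p) b, by fun_prop⟩, fun p => ?_⟩
  obtain ⟨ha, ha1, hη, hη1, hosc⟩ := adm_mesh p
  refine ⟨⟨ha, ha1, lt_min hη hb, (min_le_left _ _).trans hη1, ?_⟩, min_le_right _ _⟩
  intro x y hxy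
  apply hosc
  apply hxy.trans
  gcongr
  exact min_le_left _ _

/-- The truncated mesh. -/
noncomputable def meshN (n : ℕ) : C(Par, ℝ) :=
  (exists_meshN (1 / ((n : ℝ) + 1)) (by positivity)).choose

theorem adm_meshN (n : ℕ) (p : Par) : Adm p.1.1 (amp p) (meshN n p) :=
  ((exists_meshN (1 / ((n : ℝ) + 1)) (by positivity)).choose_spec p).1

theorem meshN_le (n : ℕ) (p : Par) : meshN n p ≤ 1 / ((n : ℝ) + 1) :=
  ((exists_meshN (1 / ((n : ℝ) + 1)) (by positivity)).choose_spec p).2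

/-- The perturbation operator with small mesh. -/
noncomputable def opN (n : ℕ) (p : Par) : C(I, I) := zmap (adm_meshN n p)

theorem continuous_opN (n : ℕ) : Continuous (opN n) := by
  apply ContinuousMap.continuous_of_continuous_uncurry
  have h : Continuous fun z : Par × I =>
      zz z.1.1.1 (amp z.1) (meshN n z.1) (z.2 : ℝ) := by
    unfold zz unf
    apply continuous_fold.comp
    have hm : Continuous fun z : Par × I => meshN n z.1 :=
      (meshN n).continuous.comp continuous_fst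
    have ha : Continuous fun z : Par × I => amp z.1 := continuous_amp.comp continuous_fst
    have hx : Continuous fun z : Par × I => (z.2 : ℝ) := continuous_subtype_val.comp continuous_snd
    have hf : Continuous fun z : Par × I => z.1.1.1 := by fun_prop
    have hne : ∀ z : Par × I, meshN n z.1 ≠ 0 := fun z => (adm_meshN n z.1).2.2.1.ne'
    have h1 : Continuous fun z : Par × I => amp z.1 / meshN n z.1 := ha.div hm hne
    have h2 : Continuous fun z : Par × I => (z.2 : ℝ) / meshN n z.1 := hx.div hm hne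
    have h3 : Continuous fun z : Par × I => lip z.1.1.1 (amp z.1 / meshN n z.1) (z.2 : ℝ) :=
      continuous_lip.comp (hf.prodMk (h1.prodMk hx))
    exact h3.add (ha.mul (continuous_zig.comp h2))
  exact h.subtype_mk _

theorem dist_opN_le (n : ℕ) (p : Par) : dist (opN n p) p.1.1 ≤ 2 * p.1.2 :=
  (dist_zmap_le _).trans (by
    have : amp p ≤ p.1.2 := min_le_left _ _
    linarith)

theorem isTrans_opN (n : ℕ) (p : Par)
    (h : Metric.infDist p.1.1 {g : C(I, I) | IsTrans g} < p.1.2 / 2) : IsTrans (opN n p) := by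
  apply isTrans_zmap
  rcases le_total 1 p.1.2 with h1 | h1
  · left
    exact min_eq_right h1
  · right
    have : amp p = p.1.2 := min_eq_left h1
    rw [this]
    exact chain_of_infDist trans_nonempty h

/-- The perturbation oscillates by a definite amount on a short interval. -/
theorem osc_opN (n : ℕ) (p : Par) (hp : p.1.2 ≤ 1 / 4) : ∃ u v : I,
    dist u v ≤ 1 / ((n : ℝ) + 1) ∧ 7 / 8 * p.1.2 ≤ dist (opN n p u) (opN n p v) := by
  have h := adm_meshN n p
  have hamp : amp p = p.1.2 := min_eq_left (by linarith)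
  have hη : 0 < meshN n p := h.2.2.1
  have hη1 : meshN n p ≤ 1 := by
    have := h.2.2.2.1
    have := h.2.1
    linarith
  have ha : 0 < p.1.2 := p.2
  obtain ⟨j, hj⟩ := exists_near hη hη1 0
  -- two values
  obtain ⟨s₁, s₂, hs₁, hs₂, hd₁, hd₂, hs⟩ : ∃ s₁ s₂ : ℝ, s₁ ∈ I ∧ s₂ ∈ I ∧
      |(p.1.1 0 : ℝ) - s₁| ≤ 7 / 8 * amp p ∧ |(p.1.1 0 : ℝ) - s₂| ≤ 7 / 8 * amp p ∧
      7 / 8 * p.1.2 ≤ |s₁ - s₂| := by
    have h0 := (p.1.1 0).2.1
    have h1 := (p.1.1 0).2.2
    rw [hamp]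
    rcases le_total (p.1.1 0 : ℝ) (1 / 2) with hc | hc
    · refine ⟨p.1.1 0, p.1.1 0 + 7 / 8 * p.1.2, (p.1.1 0).2, ⟨by linarith, by linarith⟩, ?_, ?_, ?_⟩
      · rw [sub_self, abs_zero]; linarith
      · rw [abs_le]; constructor <;> linarith
      · rw [abs_sub_comm]
        apply le_trans _ (le_abs_self _)
        linarith
    · refine ⟨p.1.1 0, p.1.1 0 - 7 / 8 * p.1.2, (p.1.1 0).2, ⟨by linarith, by linarith⟩, ?_, ?_, ?_⟩
      · rw [sub_self, abs_zero]; linarith
      · rw [abs_le]; constructor <;> linarith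
      · apply le_trans _ (le_abs_self _)
        linarith
  obtain ⟨u, hu, hus⟩ := h.cover hj hs₁ (Or.inl hd₁)
  obtain ⟨v, hv, hvs⟩ := h.cover hj hs₂ (Or.inl hd₂)
  have hIcc : ∀ w ∈ Icc ((j : ℝ) * (meshN n p / 2)) (((j : ℝ) + 1) * (meshN n p / 2)), w ∈ I := by
    intro w hw
    exact ⟨le_trans (by positivity) hw.1, hw.2.trans hj.1⟩
  refine ⟨⟨u, hIcc u hu⟩, ⟨v, hIcc v hv⟩, ?_, ?_⟩
  · show |u - v| ≤ _
    have h1 := meshN_le n p
    have h2 : |u - v| ≤ meshN n p / 2 := by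
      rw [abs_le]
      constructor <;> nlinarith [hu.1, hu.2, hv.1, hv.2]
    linarith
  · show 7 / 8 * p.1.2 ≤ |zz p.1.1 (amp p) (meshN n p) u - zz p.1.1 (amp p) (meshN n p) v|
    rw [hus, hvs]
    exact hs

/-- The strong discrete approximation property, by self-maps. -/
theorem discrete_approx {X : Set C(I, I)} (hX : X ⊆ closure {g : C(I, I) | IsTrans g})
    (ε : X → ℝ) (hε : Continuous ε) (hε0 : ∀ f, 0 < ε f) :
    ∃ Γ : ℕ → X → C(I, I), (∀ n, Continuous (Γ n)) ∧ (∀ n f, IsTrans (Γ n f)) ∧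
      (∀ n f, dist (Γ n f) f < ε f) ∧
      ∀ g ∈ X, ∃ r > 0, ∃ N : ℕ, ∀ n ≥ N, ∀ f : X, r ≤ dist (Γ n f) g := by
  set e : X → ℝ := fun f => min (ε f / 4) (1 / 4) with he
  have hec : Continuous e := by fun_prop
  have he0 : ∀ f, 0 < e f := fun f => lt_min (by linarith [hε0 f]) (by norm_num)
  have he1 : ∀ f, e f ≤ 1 / 4 := fun f => min_le_right _ _
  refine ⟨fun n f => opN n ⟨(f, e f), he0 f⟩, ?_, ?_, ?_, ?_⟩
  · intro n
    apply (continuous_opN n).comp
    apply Continuous.subtype_mk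
    fun_prop
  · intro n f
    apply isTrans_opN
    show Metric.infDist (f : C(I, I)) _ < e f / 2
    rw [(Metric.mem_closure_iff_infDist_zero trans_nonempty).1 (hX f.2)]
    linarith [he0 f]
  · intro n f
    have h1 : dist (opN n ⟨(f, e f), he0 f⟩) (f : C(I, I)) ≤ 2 * e f := dist_opN_le n _
    have h2 : e f ≤ ε f / 4 := min_le_left _ _
    linarith [hε0 f]
  · intro g hg
    -- `e` is bounded below near `g`
    obtain ⟨ρ, hρ, hρ'⟩ : ∃ ρ > 0, ∀ f : X, dist f ⟨g, hg⟩ < ρ → e ⟨g, hg⟩ / 2 < e f := by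
      have h1 : ∀ᶠ f in 𝓝 (⟨g, hg⟩ : X), e ⟨g, hg⟩ / 2 < e f :=
        (hec.tendsto _).eventually (lt_mem_nhds (by linarith [he0 ⟨g, hg⟩]))
      rw [Metric.eventually_nhds_iff] at h1
      obtain ⟨ρ, hρ, h⟩ := h1
      exact ⟨ρ, hρ, fun f hf => h hf⟩
    set m : ℝ := min (ρ / 4) (e ⟨g, hg⟩ / 2) with hm
    have hm0 : 0 < m := lt_min (by linarith) (by linarith [he0 ⟨g, hg⟩])
    have huc : UniformContinuous (g : I → I) :=
      CompactSpace.uniformContinuous_of_continuous g.continuous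
    obtain ⟨δ, hδ, hδ'⟩ := Metric.uniformContinuous_iff.1 huc (m / 4) (by positivity)
    obtain ⟨N, hN⟩ := exists_nat_gt (1 / δ)
    refine ⟨m / 4, by positivity, N, ?_⟩
    intro n hn f
    by_contra hcon
    push Not at hcon
    obtain ⟨u, v, huv, hosc⟩ := osc_opN n ⟨(f, e f), he0 f⟩ (he1 f)
    have huv' : dist u v < δ := by
      apply lt_of_le_of_lt huv
      have h1 : (1 : ℝ) / δ < (n : ℝ) + 1 := by
        have : (N : ℝ) ≤ n := by exact_mod_cast hn
        linarith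
      rw [div_lt_iff₀ (by positivity)]
      rw [div_lt_iff₀ hδ] at h1
      linarith
    have h1 : dist (g u) (g v) < m / 4 := hδ' huv'
    have h2 := (ContinuousMap.dist_apply_le_dist (f := opN n ⟨(f, e f), he0 f⟩) (g := g) u)
    have h3 := (ContinuousMap.dist_apply_le_dist (f := opN n ⟨(f, e f), he0 f⟩) (g := g) v)
    have h4 := dist_triangle4 (opN n ⟨(f, e f), he0 f⟩ u) (g u) (g v)
      (opN n ⟨(f, e f), he0 f⟩ v)
    rw [dist_comm (g v)] at h4
    have h5 : 7 / 8 * e f ≤ dist (opN n ⟨(f, e f), he0 f⟩ u) (opN n ⟨(f, e f), he0 f⟩ v) := hosc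
    have h6 : e f < m := by linarith
    have h7 : dist (opN n ⟨(f, e f), he0 f⟩) (f : C(I, I)) ≤ 2 * e f := dist_opN_le n _
    have h7' : dist (f : C(I, I)) (opN n ⟨(f, e f), he0 f⟩) ≤ 2 * e f := by
      rw [dist_comm]; exact h7
    have h8 : dist (f : C(I, I)) g < ρ := by
      have h9 := dist_triangle (f : C(I, I)) (opN n ⟨(f, e f), he0 f⟩) g
      have h10 : m ≤ ρ / 4 := min_le_left _ _
      linarith
    have h11 := hρ' f h8
    have h12 : m ≤ e ⟨g, hg⟩ / 2 := min_le_right _ _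
    linarith

end Pool.Agent.Lib.Pc7f692
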